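import Pool.Agent.Helper69.AS.St

/-!
# Project AS, module CD: comparison of defects in two charts
-/

set_option autoImplicit false

open Filter Topology Matrix Set MeasureTheory
open scoped ENNReal ComplexOrder

namespace Pool.Agent.Helper72.AS

open Pool.Agent.Helper35.PM Pool.Agent.Helper69.AS

theorem hCD (hMB : StMB) (hPC : StPC) (hMV : StMV) (hFL : StFL) : StCD := by
  intro u j hu q s₁ s hq hs₁ hσs hs
  obtain ⟨hM1, hM2, hM0, -⟩ := hMB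
  have hq0 : 0 ≤ ‖q‖ := norm_nonneg q
  have hden : 0 < 1 + ‖q‖ * s₁ := by positivity
  have hs₁1 : s₁ < 1 := by
    have h1 : (‖q‖ + s₁) / (1 + ‖q‖ * s₁) < 1 := lt_trans hσs hs
    rw [div_lt_one hden] at h1
    by_contra hc
    rw [not_lt] at hc
    nlinarith
  have hmob : ∀ ζ : ℂ, ‖ζ‖ ≤ s₁ → ‖mob q ζ‖ ≤ (‖q‖ + s₁) / (1 + ‖q‖ * s₁) := by
    intro ζ hζ
    refine le_trans (hM1 q ζ hq (lt_of_le_of_lt hζ hs₁1)).2.1 ?_
    rw [div_le_div_iff₀ (by positivity) hden]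
    have h2 : 0 ≤ (s₁ - ‖ζ‖) * (1 - ‖q‖ ^ 2) := mul_nonneg (by linarith) (by nlinarith)
    nlinarith
  have hσ0 : 0 < (‖q‖ + s₁) / (1 + ‖q‖ * s₁) := by positivity
  have hs0 : 0 < s := lt_trans hσ0 hσs
  obtain ⟨G, hGd, -, hGb⟩ := (hFL u j hu s hs0 hs).2.2 _ hσ0.le hσs
  obtain ⟨E, hE⟩ : ∃ E : ℝ, E = (s / (s - (‖q‖ + s₁) / (1 + ‖q‖ * s₁))) ^ 2 * df s u :=
    ⟨_, rfl⟩
  rw [← hE] at hGb ⊢
  have hmaps : MapsTo (mob q) (Metric.ball 0 1) (Metric.ball 0 1) := by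
    intro ζ hζ
    rw [mem_ball_zero_iff] at hζ ⊢
    exact (hM1 q ζ hq hζ).1
  have hHd : DifferentiableOn ℂ (fun ζ => G (mob q ζ)) (Metric.ball 0 1) :=
    hGd.comp (hM2 q hq) hmaps
  have hn0 : ‖(0 : ℂ)‖ + s₁ < 1 := by simpa using hs₁1
  obtain ⟨hHi, hHm⟩ := hMV _ hHd 0 s₁ hs₁ hn0
  have hPu := hPC u j hu (mob q) (hM2 q hq) hmaps
  have hui := ((hFL _ _ hPu s hs0 hs).1 0 s₁ hs₁ hn0).1
  have hvol : 0 < (volume : Measure ℂ).real (Metric.ball (0 : ℂ) s₁) :=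
    ENNReal.toReal_pos (Metric.measure_ball_pos _ _ hs₁).ne' measure_ball_lt_top.ne
  have hci : IntegrableOn (fun _ : ℂ => E) (Metric.ball (0 : ℂ) s₁) :=
    integrableOn_const measure_ball_lt_top.ne
  have hint : (∫ ζ in Metric.ball (0 : ℂ) s₁, ((G (mob q ζ)).re - E)) ≤
      ∫ ζ in Metric.ball (0 : ℂ) s₁, u (mob q ζ) := by
    refine setIntegral_mono_on (hHi.sub hci) hui measurableSet_ball ?_
    intro ζ hζ
    rw [mem_ball_zero_iff] at hζ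
    have := (hGb (mob q ζ) (hmob ζ hζ.le)).2
    linarith
  have hsub : (∫ ζ in Metric.ball (0 : ℂ) s₁, ((G (mob q ζ)).re - E)) =
      (∫ ζ in Metric.ball (0 : ℂ) s₁, (G (mob q ζ)).re) -
        (volume : Measure ℂ).real (Metric.ball (0 : ℂ) s₁) * E := by
    rw [integral_sub hHi hci, setIntegral_const, smul_eq_mul]
  have hu0 : u (mob q 0) ≤ (G (mob q 0)).re :=
    (hGb (mob q 0) (hmob 0 (by simpa using hs₁.le))).1
  rw [setAverage_eq, smul_eq_mul] at hHm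
  unfold df
  rw [setAverage_eq, smul_eq_mul]
  have h3 : ((volume : Measure ℂ).real (Metric.ball (0 : ℂ) s₁))⁻¹ *
      ((∫ ζ in Metric.ball (0 : ℂ) s₁, (G (mob q ζ)).re) -
        (volume : Measure ℂ).real (Metric.ball (0 : ℂ) s₁) * E) ≤
      ((volume : Measure ℂ).real (Metric.ball (0 : ℂ) s₁))⁻¹ *
        ∫ ζ in Metric.ball (0 : ℂ) s₁, u (mob q ζ) := by
    refine mul_le_mul_of_nonneg_left ?_ (inv_nonneg.mpr hvol.le)
    rw [← hsub]
    exact hint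
  rw [mul_sub, hHm, inv_mul_cancel_left₀ hvol.ne'] at h3
  linarith

end Pool.Agent.Helper72.AS
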